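import Pool.Agent.helper64.OT.SpecW

set_option autoImplicit false

namespace Pool.Agent.OT

open Finset Polynomial Pool.Agent.helper82.Weil Pool.Agent.helper82.KL

theorem RRH_cop {K : Type} [Field K] (g : K[X]) (m : Multiset K) (h : ∀ β ∈ m, g.eval β ≠ 0) :
    IsCoprime (m.map fun β => X - C β).prod g := by
  induction m using Multiset.induction_on with
  | empty =>
    rw [Multiset.map_zero, Multiset.prod_zero]
    exact isCoprime_one_left
  | cons a m ih =>
    rw [Multiset.map_cons, Multiset.prod_cons]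
    apply IsCoprime.mul_left
    · rw [(irreducible_X_sub_C a).coprime_iff_not_dvd, dvd_iff_isRoot]
      exact h a (Multiset.mem_cons_self a m)
    · exact ih fun β hβ => h β (Multiset.mem_cons_of_mem hβ)

theorem RRH (hRRE : RRE_stmt) (hRRG : RRG_stmt) : RRH_stmt := by
  intro p _ χ f n hχ hf hsep hdeg hn
  obtain ⟨g₀, hg0, hL0⟩ := hRRG p χ f hχ hf hsep hdeg
  have hspl : (f.map (algebraMap (ZMod p) f.SplittingField)).Splits := SplittingField.splits f
  have hR : ∀ g : (ZMod p)[X], algebraMap (ZMod p) f.SplittingField (resultant f g) =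
      ((f.map (algebraMap (ZMod p) f.SplittingField)).roots.map fun β => aeval β g).prod :=
    fun g => hRRE p f.SplittingField f g hf hspl
  have hinj : Function.Injective (algebraMap (ZMod p) f.SplittingField) :=
    (algebraMap (ZMod p) f.SplittingField).injective
  have hroot : ∀ β ∈ (f.map (algebraMap (ZMod p) f.SplittingField)).roots, aeval β f = 0 := by
    intro β hβ
    have h1 := (mem_roots'.1 hβ).2
    rw [IsRoot.def, eval_map, ← aeval_def] at h1
    exact h1
  have hcop : IsCoprime f g₀ := by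
    rw [← isCoprime_map (algebraMap (ZMod p) f.SplittingField)]
    rw [hspl.eq_prod_roots_of_monic (hf.map _)]
    apply RRH_cop
    intro β hβ h0
    apply hg0
    apply hinj
    rw [hR, map_zero]
    apply Multiset.prod_eq_zero
    rw [Multiset.mem_map]
    refine ⟨β, hβ, ?_⟩
    rw [eval_map, ← aeval_def] at h0
    exact h0
  have hmul : ∀ g g' : (ZMod p)[X],
      (∀ β ∈ (f.map (algebraMap (ZMod p) f.SplittingField)).roots, aeval β g' = aeval β (g₀ * g)) →
      resultant f g' = resultant f g₀ * resultant f g := by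
    intro g g' h
    apply hinj
    rw [map_mul, hR, hR, hR, ← Multiset.prod_map_mul]
    apply congrArg
    apply Multiset.map_congr rfl
    intro β hβ
    rw [h β hβ, map_mul]
  set Φ : (ZMod p)[X] → (ZMod p)[X] := fun g => (g₀ * (g %ₘ f)) %ₘ f + f * (g /ₘ f) with hΦ
  have hΦev : ∀ g, resultant f (Φ g) = resultant f g₀ * resultant f g := by
    intro g
    apply hmul
    intro β hβ
    have h0 := hroot β hβ
    rw [hΦ]
    show aeval β ((g₀ * (g %ₘ f)) %ₘ f + f * (g /ₘ f)) = aeval β (g₀ * g)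
    rw [map_add, aeval_modByMonic_eq_self_of_root h0, map_mul, map_mul, map_mul, h0, zero_mul, add_zero,
      aeval_modByMonic_eq_self_of_root h0]
  have hmod : ∀ g, Φ g /ₘ f = g /ₘ f ∧ Φ g %ₘ f = (g₀ * (g %ₘ f)) %ₘ f := by
    intro g
    exact div_modByMonic_unique _ _ hf ⟨rfl, degree_modByMonic_lt _ hf⟩
  have hΦinj : Function.Injective Φ := by
    intro g g' h
    have h1 := hmod g
    have h2 := hmod g'
    rw [h] at h1
    have h3 : g /ₘ f = g' /ₘ f := h1.1.symm.trans h2.1
    have h4 : (g₀ * (g %ₘ f)) %ₘ f = (g₀ * (g' %ₘ f)) %ₘ f := h1.2.symm.trans h2.2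
    have h5 : f ∣ g₀ * (g %ₘ f - g' %ₘ f) := by
      rw [← modByMonic_eq_zero_iff_dvd hf, mul_sub, sub_modByMonic, h4, sub_self]
    have h6 : f ∣ g %ₘ f - g' %ₘ f := hcop.dvd_of_dvd_mul_left h5
    have h7 : g %ₘ f - g' %ₘ f = 0 := by
      apply eq_zero_of_dvd_of_degree_lt h6
      refine (degree_sub_le _ _).trans_lt ?_
      exact max_lt (degree_modByMonic_lt _ hf) (degree_modByMonic_lt _ hf)
    rw [← modByMonic_add_div g f, ← modByMonic_add_div g' f, sub_eq_zero.1 h7, h3]
  have hfdeg : f.degree = (f.natDegree : WithBot ℕ) := degree_eq_natDegree hf.ne_zero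
  have hΦmem : ∀ g ∈ Mon (ZMod p) n, Φ g ∈ Mon (ZMod p) n := by
    intro g hg
    rw [mem_Mon] at hg ⊢
    obtain ⟨hgm, hgn⟩ := hg
    have hgdeg : g.degree = (n : WithBot ℕ) := by rw [degree_eq_natDegree hgm.ne_zero, hgn]
    have hle : f.degree ≤ g.degree := by
      rw [hfdeg, hgdeg]
      exact_mod_cast hn
    have hq : f * (g /ₘ f) = g + -(g %ₘ f) := by
      rw [← sub_eq_add_neg]
      exact eq_sub_of_add_eq' (modByMonic_add_div g f)
    have hlt : ∀ r : (ZMod p)[X], r.degree < f.degree → r.degree < g.degree := fun r hr => hr.trans_le hle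
    have hqm : (f * (g /ₘ f)).Monic := by
      rw [hq]
      exact hgm.add_of_left (by rw [degree_neg]; exact hlt _ (degree_modByMonic_lt _ hf))
    have hqd : (f * (g /ₘ f)).degree = g.degree := by
      rw [hq]
      exact degree_add_eq_left_of_degree_lt (by rw [degree_neg]; exact hlt _ (degree_modByMonic_lt _ hf))
    have hsm : ((g₀ * (g %ₘ f)) %ₘ f).degree < (f * (g /ₘ f)).degree := by
      rw [hqd]
      exact hlt _ (degree_modByMonic_lt _ hf)
    have hΦg : Φ g = f * (g /ₘ f) + (g₀ * (g %ₘ f)) %ₘ f := add_comm _ _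
    refine ⟨?_, ?_⟩
    · rw [hΦg]
      exact hqm.add_of_left hsm
    · apply natDegree_eq_of_degree_eq_some
      rw [hΦg, degree_add_eq_left_of_degree_lt hsm, hqd, hgdeg]
  have himg : (Mon (ZMod p) n).image Φ = Mon (ZMod p) n := by
    apply Finset.eq_of_subset_of_card_le
    · intro g hg
      obtain ⟨g', hg', rfl⟩ := Finset.mem_image.1 hg
      exact hΦmem g' hg'
    · rw [Finset.card_image_of_injective _ hΦinj]
  have hsum : cA (LR χ f) n = LR χ f g₀ * cA (LR χ f) n := by
    unfold cA
    calc ∑ g ∈ Mon (ZMod p) n, LR χ f g = ∑ g ∈ (Mon (ZMod p) n).image Φ, LR χ f g := by rw [himg]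
      _ = ∑ g ∈ Mon (ZMod p) n, LR χ f (Φ g) := Finset.sum_image fun a _ b _ h => hΦinj h
      _ = LR χ f g₀ * ∑ g ∈ Mon (ZMod p) n, LR χ f g := by
        rw [Finset.mul_sum]
        apply Finset.sum_congr rfl
        intro g _
        unfold LR
        rw [hΦev, map_mul]
  have h1 : (LR χ f g₀ - 1) * cA (LR χ f) n = 0 := by
    rw [sub_mul, one_mul, ← hsum, sub_self]
  rcases mul_eq_zero.1 h1 with h2 | h2
  · exact absurd (sub_eq_zero.1 h2) hL0
  · exact h2

end Pool.Agent.OT
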